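import Pool.Agent.Helper91.US.Defs2
import Pool.Agent.Helper91.US.VMix
import Pool.Agent.Helper91.US.NNBasic

set_option autoImplicit false

namespace Pool.Agent.US

open Finset Filter Topology


/-! ### congruence and scaling of the depth -/

theorem sub_D_congr (n : ℕ) (y y' : ℕ → ℝ) : ∀ (d k : ℕ), n - k = d →
    (∀ j, k < j → j ≤ n → y j = y' j) → D n y k = D n y' k := by
  intro d
  induction d using Nat.strong_induction_on with
  | _ d ih =>
    intro k hk h
    rw [D_eq, D_eq]
    congr 1
    refine Finset.sum_congr rfl fun j hj => ?_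
    rw [Finset.mem_Ioc] at hj
    rw [h j hj.1 hj.2, ih (n - j) (by omega) j rfl fun l hl hln => h l (by omega) hln]

theorem sub_G_congr (n : ℕ) (y y' : ℕ → ℝ) (h : ∀ j ≤ n, y j = y' j) : G n y 0 = G n y' 0 := by
  unfold G
  exact Finset.sum_congr rfl fun j _ => sub_D_congr n y y' _ j rfl fun l _ hl => h l hl

theorem sub_F_congr {m m' : ℕ → ℝ} {k : ℕ} (h : ∀ j < k, m j = m' j) : F m k = F m' k :=
  Finset.sum_congr rfl fun j hj => h j (Finset.mem_range.1 hj)

theorem sub_V_congr {m m' : ℕ → ℝ} {i : ℕ} (h : ∀ j ≤ i, m j = m' j) : V i m = V i m' := by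
  unfold V
  congr 1
  refine sub_G_congr i _ _ fun k hk => ?_
  unfold Y
  rw [sub_F_congr (m := m) (m' := m') (k := i + 1) fun j hj => h j (by omega),
    sub_F_congr (m := m) (m' := m') (k := k) fun j hj => h j (by omega)]

theorem sub_F_smul (s : ℝ) (m : ℕ → ℝ) (k : ℕ) : F (fun j => s * m j) k = s * F m k := by
  unfold F
  rw [Finset.mul_sum]

theorem sub_F_mono {m : ℕ → ℝ} (hm : ∀ i, 0 ≤ m i) {k l : ℕ} (hkl : k ≤ l) : F m k ≤ F m l := by
  unfold F
  exact Finset.sum_le_sum_of_subset_of_nonneg (Finset.range_mono hkl) fun i _ _ => hm i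

theorem sub_F_succ (m : ℕ → ℝ) (k : ℕ) : F m (k + 1) = F m k + m k := Finset.sum_range_succ _ _

theorem sub_F_nonneg {m : ℕ → ℝ} (hm : ∀ i, 0 ≤ m i) (k : ℕ) : 0 ≤ F m k :=
  Finset.sum_nonneg fun i _ => hm i

theorem sub_V_smul {s : ℝ} (hs : 0 < s) {m : ℕ → ℝ} (hm : ∀ i, 0 ≤ m i) {i : ℕ} (hi : 0 < m i) :
    V i (fun j => s * m j) = V i m := by
  unfold V
  congr 1
  refine sub_G_congr i _ _ fun k hk => ?_
  unfold Y
  rw [sub_F_smul, sub_F_smul]
  have h1 : F m k < F m (i + 1) := by
    rw [sub_F_succ]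
    have := sub_F_mono hm hk
    linarith
  have h2 : 0 < F m (i + 1) := lt_of_le_of_lt (sub_F_nonneg hm k) h1
  have h3 : 0 < F m (i + 1) - F m k := by linarith
  rw [← mul_sub, Real.log_mul hs.ne' h2.ne', Real.log_mul hs.ne' h3.ne']
  ring

/-! ## E1 SUBADD -/
theorem NN_add_le {β : ℝ} (hβ : 0 ≤ β) {z z' : ℕ → ℝ} (hz : ∀ i, 0 ≤ z i) (hz' : ∀ i, 0 ≤ z' i)
    (a n : ℕ) (h1 : ∀ i, a ≤ i → z i = 0) (h2 : ∀ i < a, z' i = 0) (h3 : ∀ i, n ≤ i → z' i = 0) :
    NN β (fun i => z i + z' i) ≤ NN β z + NN β z' := by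
  set R := max n a with hR
  have hzR : ∀ i, R ≤ i → z i = 0 := fun i hi => h1 i (le_trans (le_max_right _ _) hi)
  have hzR' : ∀ i, R ≤ i → z' i = 0 := fun i hi => h3 i (le_trans (le_max_left _ _) hi)
  refine NN_le_of (n := R) (fun i hi => by rw [hzR i hi, hzR' i hi, add_zero]) fun m hm => ?_
  obtain ⟨hm0, hmz, hmR⟩ := hm
  set m1 : ℕ → ℝ := fun i => if i < a then m i else 0 with hm1
  have hA1 : Adm R m1 z := by
    refine ⟨fun i => ?_, fun i hi => ?_, fun i hi => ?_⟩
    · simp only [hm1]; split_ifs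
      · exact hm0 i
      · exact le_rfl
    · simp only [hm1]; split_ifs with hia
      · exact hmz i (show z i + z' i = 0 by rw [hi, h2 i hia, add_zero])
      · rfl
    · simp only [hm1]; split_ifs
      · exact hmR i hi
      · rfl
  have hA2 : Adm R (tail a m) z' := by
    refine ⟨fun i => ?_, fun i hi => ?_, fun i hi => ?_⟩
    · simp only [tail]; split_ifs
      · exact hm0 i
      · exact le_rfl
    · simp only [tail]; split_ifs with hia
      · exact hmz i (show z i + z' i = 0 by rw [hi, h1 i hia, add_zero])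
      · rfl
    · simp only [tail]; split_ifs
      · exact hmR i hi
      · rfl
  have e1 := le_NN hβ hz hzR hA1
  have e2 := le_NN hβ hz' hzR' hA2
  refine le_trans ?_ (add_le_add e1 e2)
  unfold JJ
  have hent : ∑ i ∈ range R, (m i * Real.log (z i + z' i) - m i * Real.log (m i) + m i) =
      ∑ i ∈ range R, (m1 i * Real.log (z i) - m1 i * Real.log (m1 i) + m1 i) +
      ∑ i ∈ range R, (tail a m i * Real.log (z' i) - tail a m i * Real.log (tail a m i) +
        tail a m i) := by
    rw [← Finset.sum_add_distrib]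
    refine Finset.sum_congr rfl fun i _ => ?_
    by_cases hia : i < a
    · have ht : tail a m i = 0 := by simp [tail, not_le.2 hia]
      have hm1i : m1 i = m i := by simp [hm1, hia]
      rw [ht, hm1i, h2 i hia]
      ring_nf
    · have ht : tail a m i = m i := by simp [tail, not_lt.1 hia]
      have hm1i : m1 i = 0 := by simp [hm1, hia]
      rw [ht, hm1i, h1 i (not_lt.1 hia)]
      ring_nf
  have hD : Dsum R m1 + Dsum R (tail a m) ≤ Dsum R m := by
    unfold Dsum
    rw [← Finset.sum_add_distrib]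
    refine Finset.sum_le_sum fun i _ => ?_
    by_cases hia : i < a
    · have ht : tail a m i = 0 := by simp [tail, not_le.2 hia]
      have hm1i : m1 i = m i := by simp [hm1, hia]
      have hV : V i m1 = V i m := sub_V_congr fun j hj => by
        simp only [hm1]; rw [if_pos (by omega)]
      rw [ht, hm1i, hV]
      linarith
    · have ht : tail a m i = m i := by simp [tail, not_lt.1 hia]
      have hm1i : m1 i = 0 := by simp [hm1, hia]
      rw [ht, hm1i]
      rcases (hm0 i).lt_or_eq with hpos | h0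
      · have := mul_le_mul_of_nonneg_left (V_mono_tail hm0 (not_lt.1 hia) hpos) (hm0 i)
        linarith
      · rw [← h0]; simp
  have := mul_le_mul_of_nonneg_left hD hβ
  rw [hent]
  linarith

/-! ### normalisation -/

theorem sub_JJ_smul (β : ℝ) {s : ℝ} (hs : 0 < s) {m z : ℕ → ℝ} (hm : ∀ i, 0 ≤ m i) (n : ℕ) :
    JJ β n (fun i => s * m i) z = s * JJ β n m z - s * Real.log s * ∑ i ∈ range n, m i := by
  unfold JJ Dsum
  have h1 : ∑ i ∈ range n, (s * m i * Real.log (z i) - s * m i * Real.log (s * m i) + s * m i) =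
      s * ∑ i ∈ range n, (m i * Real.log (z i) - m i * Real.log (m i) + m i) -
        s * Real.log s * ∑ i ∈ range n, m i := by
    rw [Finset.mul_sum, Finset.mul_sum, ← Finset.sum_sub_distrib]
    refine Finset.sum_congr rfl fun i _ => ?_
    rcases (hm i).lt_or_eq with hpos | h0
    · rw [Real.log_mul hs.ne' hpos.ne']; ring
    · rw [← h0]; simp
  have h2 : ∑ i ∈ range n, s * m i * V i (fun j => s * m j) = s * ∑ i ∈ range n, m i * V i m := by
    rw [Finset.mul_sum]
    refine Finset.sum_congr rfl fun i _ => ?_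
    rcases (hm i).lt_or_eq with hpos | h0
    · rw [sub_V_smul hs hm hpos]; ring
    · rw [← h0]; simp
  rw [h1, h2]
  ring

theorem sub_one_sub_inv_le_log {x : ℝ} (hx : 0 < x) : 1 - x⁻¹ ≤ Real.log x :=
  Real.one_sub_inv_le_log_of_pos hx

/-- a normalised near maximiser -/
theorem sub_exists_mass_one {β : ℝ} {R : ℕ} {z : ℕ → ℝ} (hz : ∀ i, R ≤ i → z i = 0)
    (h : 1 ≤ NN β z) : ∃ μ : ℕ → ℝ, Adm R μ z ∧ ∑ i ∈ range R, μ i = 1 ∧
      3 / 4 ≤ JJ β R μ z := by
  have h1 : ∃ m, Adm R m z ∧ 4 / 5 < JJ β R m z := by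
    by_contra hcon
    push Not at hcon
    have := NN_le_of hz hcon
    linarith
  obtain ⟨m, hm, hJ⟩ := h1
  obtain ⟨hm0, hmz, hmR⟩ := hm
  set t := ∑ i ∈ range R, m i with ht
  have ht0 : 0 ≤ t := Finset.sum_nonneg fun i _ => hm0 i
  have htpos : 0 < t := by
    rcases ht0.lt_or_eq with hpos | h0
    · exact hpos
    · exfalso
      have hall : ∀ i ∈ range R, m i = 0 :=
        (Finset.sum_eq_zero_iff_of_nonneg fun i _ => hm0 i).1 (by rw [← ht, ← h0])
      have hJ0 : JJ β R m z = 0 := by
        unfold JJ Dsum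
        have e1 : ∑ i ∈ range R, (m i * Real.log (z i) - m i * Real.log (m i) + m i) = 0 :=
          Finset.sum_eq_zero fun i hi => by rw [hall i hi]; simp
        have e2 : ∑ i ∈ range R, m i * V i m = 0 :=
          Finset.sum_eq_zero fun i hi => by rw [hall i hi]; simp
        rw [e1, e2]; simp
      rw [hJ0] at hJ
      norm_num at hJ
  have hs : 0 < t⁻¹ := inv_pos.2 htpos
  refine ⟨fun i => t⁻¹ * m i, ⟨fun i => mul_nonneg hs.le (hm0 i), fun i hi => ?_, fun i hi => ?_⟩,
    ?_, ?_⟩
  · simp only [hmz i hi, mul_zero]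
  · simp only [hmR i hi, mul_zero]
  · rw [← Finset.mul_sum, ← ht, inv_mul_cancel₀ htpos.ne']
  · rw [sub_JJ_smul β hs hm0, ← ht, Real.log_inv]
    have e1 : t⁻¹ * JJ β R m z - t⁻¹ * -Real.log t * t = t⁻¹ * JJ β R m z + Real.log t := by
      field_simp
      ring
    rw [e1]
    have e2 : t⁻¹ * (4 / 5) ≤ t⁻¹ * JJ β R m z := mul_le_mul_of_nonneg_left hJ.le hs.le
    have e3 : Real.log t = Real.log (t / (4 / 5)) + Real.log (4 / 5) := by
      rw [← Real.log_mul (by positivity) (by norm_num)]
      congr 1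
      field_simp
    have e4 := sub_one_sub_inv_le_log (x := t / (4 / 5)) (by positivity)
    have e5 := sub_one_sub_inv_le_log (x := (4 : ℝ) / 5) (by norm_num)
    have e6 : (t / (4 / 5))⁻¹ = t⁻¹ * (4 / 5) := by field_simp
    rw [e6] at e4
    norm_num at e5
    linarith

/-- the telescoping estimate -/
theorem sub_entropy {μ : ℕ → ℝ} (hμ : ∀ i, 0 ≤ μ i) (R : ℕ) :
    ∑ i ∈ range R, μ i * (-Real.log (F μ (i + 1))) ≤ F μ R - F μ R * Real.log (F μ R) := by
  induction R with
  | zero => simp [F]
  | succ R ih =>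
    rw [Finset.sum_range_succ]
    have ha := sub_F_nonneg hμ R
    have hb := sub_F_succ μ R
    rcases (hμ R).lt_or_eq with hpos | h0
    · set a := F μ R with haa
      set b := F μ (R + 1) with hbb
      have hbpos : 0 < b := by rw [hb]; linarith
      have key : a - b ≤ a * (Real.log a - Real.log b) := by
        rcases ha.lt_or_eq with hapos | ha0
        · have e1 := sub_one_sub_inv_le_log (x := a / b) (by positivity)
          rw [Real.log_div hapos.ne' hbpos.ne', inv_div] at e1
          have e2 := mul_le_mul_of_nonneg_left e1 ha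
          have e3 : a * (1 - b / a) = a - b := by field_simp
          linarith
        · rw [← ha0]
          linarith
      have e4 : μ R = b - a := by rw [hb]; ring
      rw [e4]
      nlinarith
    · rw [← h0] at hb ⊢
      rw [hb, add_zero]
      simpa using ih

/-! ## E2 LOWER -/
theorem NN_lower {β : ℝ} (hβ : 0 ≤ β) (hβ' : β ≤ 1 / 4) : ∀ n : ℕ, ∃ L : ℕ,
    ∀ (N : ℕ → ℕ) (z : ℕ → ℕ → ℝ), StrictMono N → L ≤ N 0 → (∀ j i, 0 ≤ z j i) →
      (∀ j i, z j i ≠ 0 → N j ≤ i ∧ i < N (j + 1)) → (∀ j < n, 1 ≤ NN β (z j)) →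
      (n : ℝ) / 4 ≤ NN β (fun i => ∑ j ∈ range n, z j i) := by
  classical
  intro n
  obtain ⟨A, hA, hA0, hAV⟩ := V_upper
  have hL : ∃ L, A L * (Real.log n + 1) ≤ 1 := by
    have h1 : Tendsto (fun L => A L * (Real.log n + 1)) atTop (𝓝 (0 * (Real.log n + 1))) :=
      hA.mul_const _
    rw [zero_mul] at h1
    obtain ⟨L, hL⟩ := (h1.eventually (gt_mem_nhds (show (0 : ℝ) < 1 by norm_num))).exists
    exact ⟨L, hL.le⟩
  obtain ⟨L, hL⟩ := hL
  refine ⟨L, fun N z hN hL0 hz hsupp hone => ?_⟩
  set R := N n with hR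
  have hzR : ∀ j < n, ∀ i, R ≤ i → z j i = 0 := by
    intro j hj i hi
    by_contra hne
    have h1 := (hsupp j i hne).2
    have h2 : N (j + 1) ≤ N n := hN.monotone hj
    omega
  have hex : ∀ j, ∃ μ : ℕ → ℝ, j < n → Adm R μ (z j) ∧ ∑ i ∈ range R, μ i = 1 ∧
      3 / 4 ≤ JJ β R μ (z j) := by
    intro j
    by_cases hj : j < n
    · obtain ⟨μ, hμ⟩ := sub_exists_mass_one (hzR j hj) (hone j hj)
      exact ⟨μ, fun _ => hμ⟩
    · exact ⟨0, fun h => absurd h hj⟩
  choose μ hμ using hex
  have hμ0 : ∀ j < n, ∀ i, 0 ≤ μ j i := fun j hj i => (hμ j hj).1.1 i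
  have hμs : ∀ j < n, ∀ i, μ j i ≠ 0 → N j ≤ i ∧ i < N (j + 1) := by
    intro j hj i hne
    apply hsupp j i
    intro h0
    exact hne ((hμ j hj).1.2.1 i h0)
  -- the blocks are disjoint
  have hblock : ∀ j j' i, N j ≤ i → i < N (j + 1) → N j' ≤ i → i < N (j' + 1) → j = j' := by
    intro j j' i h1 h2 h3 h4
    rcases lt_trichotomy j j' with h | h | h
    · have : N (j + 1) ≤ N j' := hN.monotone h
      omega
    · exact h
    · have : N (j' + 1) ≤ N j := hN.monotone h
      omega
  set m : ℕ → ℝ := fun i => ∑ j ∈ range n, μ j i with hm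
  set Z : ℕ → ℝ := fun i => ∑ j ∈ range n, z j i with hZ
  have hm_eq : ∀ j < n, ∀ i, N j ≤ i → i < N (j + 1) → m i = μ j i := by
    intro j hj i h1 h2
    simp only [hm]
    refine Finset.sum_eq_single_of_mem j (Finset.mem_range.2 hj) fun j' hj' hne => ?_
    by_contra h0
    have := hμs j' (Finset.mem_range.1 hj') i h0
    exact hne (hblock _ _ i this.1 this.2 h1 h2)
  have hZ_eq : ∀ j < n, ∀ i, N j ≤ i → i < N (j + 1) → Z i = z j i := by
    intro j hj i h1 h2
    simp only [hZ]
    refine Finset.sum_eq_single_of_mem j (Finset.mem_range.2 hj) fun j' hj' hne => ?_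
    by_contra h0
    have := hsupp j' i h0
    exact hne (hblock _ _ i this.1 this.2 h1 h2)
  have hm0 : ∀ i, 0 ≤ m i := fun i => Finset.sum_nonneg fun j hj => hμ0 j (Finset.mem_range.1 hj) i
  have hZ0 : ∀ i, 0 ≤ Z i := fun i => Finset.sum_nonneg fun j _ => hz j i
  have hAdm : Adm R m Z := by
    refine ⟨hm0, fun i hi => ?_, fun i hi => ?_⟩
    · have hall := (Finset.sum_eq_zero_iff_of_nonneg fun j _ => hz j i).1 hi
      exact Finset.sum_eq_zero fun j hj => (hμ j (Finset.mem_range.1 hj)).1.2.1 i (hall j hj)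
    · exact Finset.sum_eq_zero fun j hj => (hμ j (Finset.mem_range.1 hj)).1.2.2 i hi
  have hZR : ∀ i, R ≤ i → Z i = 0 := fun i hi =>
    Finset.sum_eq_zero fun j hj => hzR j (Finset.mem_range.1 hj) i hi
  refine le_trans ?_ (le_NN hβ hZ0 hZR hAdm)
  -- the entropy part splits
  have hent : ∑ i ∈ range R, (m i * Real.log (Z i) - m i * Real.log (m i) + m i) =
      ∑ j ∈ range n, ∑ i ∈ range R,
        (μ j i * Real.log (z j i) - μ j i * Real.log (μ j i) + μ j i) := by
    rw [Finset.sum_comm]
    refine Finset.sum_congr rfl fun i _ => ?_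
    by_cases hi : ∃ j < n, N j ≤ i ∧ i < N (j + 1)
    · obtain ⟨j, hj, h1, h2⟩ := hi
      rw [hm_eq j hj i h1 h2, hZ_eq j hj i h1 h2]
      symm
      refine Finset.sum_eq_single_of_mem j (Finset.mem_range.2 hj) fun j' hj' hne => ?_
      have h0 : μ j' i = 0 := by
        by_contra h0
        have := hμs j' (Finset.mem_range.1 hj') i h0
        exact hne (hblock _ _ i this.1 this.2 h1 h2)
      rw [h0]; simp
    · have h0 : ∀ j ∈ range n, μ j i = 0 := by
        intro j hj
        by_contra h0
        exact hi ⟨j, Finset.mem_range.1 hj, hμs j (Finset.mem_range.1 hj) i h0⟩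
      have hm00 : m i = 0 := Finset.sum_eq_zero h0
      rw [hm00]
      symm
      rw [Finset.sum_eq_zero fun j hj => by rw [h0 j hj]; simp]
      simp
  have hDs : Dsum R m = ∑ j ∈ range n, ∑ i ∈ range R, μ j i * V i m := by
    unfold Dsum
    rw [Finset.sum_comm]
    refine Finset.sum_congr rfl fun i _ => ?_
    rw [← Finset.sum_mul]
  -- masses
  have hFμ : ∀ j < n, ∀ k, k ≤ N j → F (μ j) k = 0 := by
    intro j hj k hk
    refine Finset.sum_eq_zero fun l hl => ?_
    by_contra h0
    have := (hμs j hj l h0).1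
    have := Finset.mem_range.1 hl
    omega
  have hFμ1 : ∀ j < n, ∀ k, N (j + 1) ≤ k → F (μ j) k = 1 := by
    intro j hj k hk
    rw [← (hμ j hj).2.1]
    unfold F
    have h2 : N (j + 1) ≤ R := hN.monotone hj
    rw [← Finset.sum_subset (Finset.range_mono hk) fun i _ hni => by
      by_contra h0
      exact hni (Finset.mem_range.2 (hμs j hj i h0).2)]
    rw [← Finset.sum_subset (Finset.range_mono h2) fun i _ hni => by
      by_contra h0
      exact hni (Finset.mem_range.2 (hμs j hj i h0).2)]
  have hFm : ∀ k, F m k = ∑ j ∈ range n, F (μ j) k := by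
    intro k
    unfold F
    rw [Finset.sum_comm]
  have hFmN : ∀ j < n, F m (N j) = j := by
    intro j hj
    rw [hFm]
    have h1 : ∀ j' ∈ range n, F (μ j') (N j) = if j' < j then 1 else 0 := by
      intro j' hj'
      split_ifs with h
      · exact hFμ1 j' (Finset.mem_range.1 hj') _ (hN.monotone h)
      · exact hFμ j' (Finset.mem_range.1 hj') _ (hN.monotone (not_lt.1 h))
    rw [Finset.sum_congr rfl h1, Finset.sum_ite, Finset.sum_const_zero, add_zero, Finset.sum_const,
      nsmul_eq_mul, mul_one]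
    congr 1
    have : (range n).filter (fun j' => j' < j) = range j := by
      ext a; simp only [Finset.mem_filter, Finset.mem_range]; omega
    rw [this, Finset.card_range]
  have hFmi : ∀ j < n, ∀ i, N j ≤ i → i < N (j + 1) → F m (i + 1) = j + F (μ j) (i + 1) := by
    intro j hj i h1 h2
    rw [hFm]
    have h3 : ∀ j' ∈ range n, F (μ j') (i + 1) = (if j' < j then 1 else 0) +
        (if j' = j then F (μ j) (i + 1) else 0) := by
      intro j' hj'
      rcases lt_trichotomy j' j with h | h | h
      · rw [if_pos h, if_neg h.ne, add_zero]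
        have : N (j' + 1) ≤ N j := hN.monotone h
        exact hFμ1 j' (Finset.mem_range.1 hj') _ (by omega)
      · subst h; simp
      · rw [if_neg (by omega), if_neg h.ne', add_zero]
        have : N (j + 1) ≤ N j' := hN.monotone h
        exact hFμ j' (Finset.mem_range.1 hj') _ (by omega)
    rw [Finset.sum_congr rfl h3, Finset.sum_add_distrib, Finset.sum_ite, Finset.sum_const_zero,
      add_zero, Finset.sum_const, nsmul_eq_mul, mul_one, Finset.sum_ite_eq', if_pos
      (Finset.mem_range.2 hj)]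
    congr 2
    have : (range n).filter (fun j' => j' < j) = range j := by
      ext a; simp only [Finset.mem_filter, Finset.mem_range]; omega
    rw [this, Finset.card_range]
  -- the depth estimate on each block
  have hV : ∀ j < n, ∑ i ∈ range R, μ j i * V i m ≤ ∑ i ∈ range R, μ j i * V i (μ j) + 2 := by
    intro j hj
    have hlogn : 0 ≤ Real.log n := Real.log_natCast_nonneg n
    have h1 : ∀ i ∈ range R, μ j i * V i m ≤ μ j i * V i (μ j) + (μ j i +
        A L * (μ j i * Real.log n + μ j i * (-Real.log (F (μ j) (i + 1))))) := by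
      intro i _
      rcases (hμ0 j hj i).lt_or_eq with hpos | h0
      · obtain ⟨ha, hb⟩ := hμs j hj i hpos.ne'
        have hmi : 0 < m i := by rw [hm_eq j hj i ha hb]; exact hpos
        have hLm : ∀ l < L, m l = 0 := by
          intro l hl
          refine Finset.sum_eq_zero fun j' hj' => ?_
          by_contra h0
          have := (hμs j' (Finset.mem_range.1 hj') l h0).1
          have h2 : N 0 ≤ N j' := hN.monotone (Nat.zero_le _)
          omega
        have hLN : L ≤ N j := le_trans hL0 (hN.monotone (Nat.zero_le _))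
        have e1 := hAV m L (N j) i hm0 hLm hLN ha hmi
        have e2 : V i (tail (N j) m) = V i (μ j) := by
          refine sub_V_congr fun l hl => ?_
          simp only [tail]
          split_ifs with hl'
          · exact hm_eq j hj l hl' (by omega)
          · by_contra h0
            exact hl' (hμs j hj l (Ne.symm h0)).1
        have hf0 : 0 < F (μ j) (i + 1) := by
          rw [sub_F_succ]
          have := sub_F_nonneg (hμ0 j hj) i
          linarith
        have hf1 : F (μ j) (i + 1) ≤ 1 := by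
          rw [← hFμ1 j hj _ le_rfl]
          exact sub_F_mono (hμ0 j hj) (by omega)
        have hjn : (j : ℝ) + 1 ≤ n := by exact_mod_cast hj
        have e3 : Y m i (N j) ≤ Real.log n + (-Real.log (F (μ j) (i + 1))) := by
          unfold Y
          rw [hFmi j hj i ha hb, hFmN j hj, add_sub_cancel_left]
          have : Real.log (j + F (μ j) (i + 1)) ≤ Real.log n :=
            Real.log_le_log (by positivity) (by linarith)
          linarith
        have e4 : V i m ≤ V i (μ j) + (1 + A L * (Real.log n + (-Real.log (F (μ j) (i + 1))))) := by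
          have := mul_le_mul_of_nonneg_left e3 (hA0 L)
          rw [e2] at e1
          linarith
        have e5 := mul_le_mul_of_nonneg_left e4 hpos.le
        calc μ j i * V i m ≤ _ := e5
          _ = _ := by ring
      · rw [← h0]; simp
    refine (Finset.sum_le_sum h1).trans ?_
    rw [Finset.sum_add_distrib, Finset.sum_add_distrib, ← Finset.mul_sum, Finset.sum_add_distrib,
      ← Finset.sum_mul, (hμ j hj).2.1, one_mul]
    have h2 := sub_entropy (hμ0 j hj) R
    have h3 : F (μ j) R = 1 := (hμ j hj).2.1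
    rw [h3, Real.log_one, mul_zero, sub_zero] at h2
    have h4 := mul_le_mul_of_nonneg_left (add_le_add_right h2 (Real.log n)) (hA0 L)
    linarith
  have hJ : ∀ j < n, 3 / 4 - 2 * β ≤ ∑ i ∈ range R,
      (μ j i * Real.log (z j i) - μ j i * Real.log (μ j i) + μ j i) -
      β * ∑ i ∈ range R, μ j i * V i m := by
    intro j hj
    have h1 := (hμ j hj).2.2
    unfold JJ Dsum at h1
    have h2 := mul_le_mul_of_nonneg_left (hV j hj) hβ
    linarith
  unfold JJ
  rw [hent, hDs, Finset.mul_sum, ← Finset.sum_sub_distrib]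
  calc (n : ℝ) / 4 = ∑ _j ∈ range n, (1 / 4 : ℝ) := by
        rw [Finset.sum_const, Finset.card_range, nsmul_eq_mul]; ring
    _ ≤ _ := Finset.sum_le_sum fun j hj => by
        have := hJ j (Finset.mem_range.1 hj)
        linarith

end Pool.Agent.US
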